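import Pool.Agent.Helper28.TL.StW

/-!
# Project TL, all weights, module Pol: polynomiality of psi

Adapted from `Pool/Agent/Helper63/WK/M_Pol.lean`.
-/

set_option autoImplicit false

namespace Pool.Agent.Helper66.TLW

open Pool.Agent.Helper28.TL Pool.Agent.Helper28.WK Pool.Agent.Helper4.TL Pool.Agent.Helper14.CV

/-- the coefficients -/
private def w (a j : ℕ) : ℤ := (-1 : ℤ) ^ j * ((a + 1).choose j : ℤ)

private theorem sum_w (a : ℕ) : ∑ j ∈ Finset.range (a + 2), w a j = 0 := by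
  have := Int.alternating_sum_range_choose (n := a + 1)
  simpa [w] using this

private theorem sum_w_const {R : Type} [AddCommGroup R] (a : ℕ) (k : R) :
    ∑ j ∈ Finset.range (a + 2), w a j • k = 0 := by
  rw [← Finset.sum_smul, sum_w, zero_smul]

private theorem Nb_eq {R : Type} [AddCommGroup R] (a : ℕ) (h : ℤ) (G : ℤ → ℤ → R) (x y : ℤ) :
    Nb a h G x y = ∑ j ∈ Finset.range (a + 2), w a j • G (x + j * h * y) y := rfl

private theorem Nc_eq {R : Type} [AddCommGroup R] (a : ℕ) (c : ℤ) (G : ℤ → ℤ → R) (x y : ℤ) :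
    Nc a c G x y = ∑ j ∈ Finset.range (a + 2), w a j • G x (j * c * x + y) := rfl

private theorem nz1 {x y : ℤ} (t : ℤ) (h : x ≠ 0 ∨ y ≠ 0) : x + t * y ≠ 0 ∨ y ≠ 0 := by
  by_cases hy : y = 0
  · left
    rw [hy, mul_zero, add_zero]
    rcases h with h | h
    · exact h
    · exact absurd hy h
  · exact Or.inr hy

private theorem nz2 {x y : ℤ} (t : ℤ) (h : x ≠ 0 ∨ y ≠ 0) : x ≠ 0 ∨ t * x + y ≠ 0 := by
  by_cases hx : x = 0
  · right
    rw [hx, mul_zero, zero_add]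
    rcases h with h | h
    · exact absurd hx h
    · exact h
  · exact Or.inl hx

private theorem nz3 {x y : ℤ} (t : ℤ) (ht : t ≠ 0) (h : x ≠ 0 ∨ y ≠ 0) : t * x ≠ 0 ∨ y ≠ 0 :=
  h.imp (mul_ne_zero ht) id

private theorem nz4 {x y : ℤ} (t : ℤ) (ht : t ≠ 0) (h : x ≠ 0 ∨ y ≠ 0) : x ≠ 0 ∨ t * y ≠ 0 :=
  h.imp id (mul_ne_zero ht)

private theorem const_of_EqC {R : Type} [AddCommGroup R] {F : ℤ → ℤ → R} (h : EqC F 0)
    {x y x' y' : ℤ} (h1 : x ≠ 0 ∨ y ≠ 0) (h2 : x' ≠ 0 ∨ y' ≠ 0) : F x y = F x' y' := by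
  obtain ⟨c, hc⟩ := h
  rw [hc x y h1, hc x' y' h2]
  simp

private theorem EqC_of_const {R : Type} [AddCommGroup R] {F : ℤ → ℤ → R}
    (h : ∀ x y x' y' : ℤ, (x ≠ 0 ∨ y ≠ 0) → (x' ≠ 0 ∨ y' ≠ 0) → F x y = F x' y') : EqC F 0 := by
  refine ⟨F 1 0, fun x y hxy => ?_⟩
  rw [h x y 1 0 hxy (Or.inl one_ne_zero)]
  simp

private theorem ext2 {p : ℕ} [Fact p.Prime] {x y : ℤ_[p]}
    (h : ∀ M : ℕ, 2 ≤ M → PadicInt.toZModPow M x = PadicInt.toZModPow M y) : x = y := by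
  apply PadicInt.ext_of_toZModPow.1
  intro n
  rcases le_or_gt 2 n with hn | hn
  · exact h n hn
  · have h2 := h 2 le_rfl
    rw [← PadicInt.cast_toZModPow n 2 (by omega) x, ← PadicInt.cast_toZModPow n 2 (by omega) y, h2]

theorem hPol : SEPol := by
  intro p hp κ a ν G ψ hp2 hν hG hψ hL hu hGb hGc
  have hp0 : (p : ℤ) ≠ 0 := by exact_mod_cast hp.out.ne_zero
  obtain ⟨k, hk⟩ := hu
  have hstep : ∀ x y : ℤ, (x ≠ 0 ∨ y ≠ 0) → ψ (p * x) y = ψ x y + (κ • G x y + k) := by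
    intro x y hxy
    have h1 := hk x y hxy
    have h2 : ψ (p * x) y - ψ x y = κ • G x y + k := by
      simpa [act] using h1
    rw [← h2]
    abel
  -- (1)
  have h1 : ∀ (h x y : ℤ), (x ≠ 0 ∨ y ≠ 0) →
      Nb a (p * h) ψ (p * x) y = Nb a h ψ x y + κ • Nb a h G x y := by
    intro h x y hxy
    rw [Nb_eq, Nb_eq, Nb_eq, Finset.smul_sum]
    have e : ∀ j ∈ Finset.range (a + 2), w a j • ψ (p * x + j * (p * h) * y) y =
        w a j • ψ (x + j * h * y) y + κ • (w a j • G (x + j * h * y) y) + w a j • k := by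
      intro j _
      have e1 : (p : ℤ) * x + j * (p * h) * y = p * (x + j * h * y) := by ring
      rw [e1, hstep _ _ (nz1 (j * h) hxy), smul_add, smul_add, smul_comm (w a j) κ]
      abel
    rw [Finset.sum_congr rfl e, Finset.sum_add_distrib, Finset.sum_add_distrib, sum_w_const,
      add_zero]
  -- iteration
  have h2 : ∀ (h : ℤ), 2 * (p : ℤ) ∣ h → ∀ (m : ℕ) (x y x' y' : ℤ), (x ≠ 0 ∨ y ≠ 0) →
      (x' ≠ 0 ∨ y' ≠ 0) → Nb a (p ^ m * h) ψ (p ^ m * x) y - Nb a (p ^ m * h) ψ (p ^ m * x') y' =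
        Nb a h ψ x y - Nb a h ψ x' y' := by
    intro h hh m
    induction m with
    | zero =>
      intro x y x' y' _ _
      simp
    | succ m ih =>
      intro x y x' y' hv hv'
      have hpm : (p : ℤ) ^ m ≠ 0 := pow_ne_zero _ hp0
      have e1 : (p : ℤ) ^ (m + 1) * h = p * (p ^ m * h) := by ring
      have e2 : (p : ℤ) ^ (m + 1) * x = p * (p ^ m * x) := by ring
      have e3 : (p : ℤ) ^ (m + 1) * x' = p * (p ^ m * x') := by ring
      rw [e1, e2, e3, h1 _ _ _ (nz3 _ hpm hv), h1 _ _ _ (nz3 _ hpm hv'),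
        const_of_EqC (hGb (p ^ m * h) (Dvd.dvd.mul_left hh _)) (nz3 _ hpm hv) (nz3 _ hpm hv'),
        ← ih x y x' y' hv hv']
      abel
  -- reduction
  have h3 : ∀ (M : ℕ), 2 ≤ M → ∀ h : ℤ, (p : ℤ) ^ M ∣ h → (2 : ℤ) ∣ h → ∀ (x y x' y' : ℤ), (x ≠ 0 ∨ y ≠ 0) →
      (x' ≠ 0 ∨ y' ≠ 0) → PadicInt.toZModPow M (Nb a h ψ x y) =
        PadicInt.toZModPow M (Nb a h ψ x' y') := by
    intro M hM h hh h2h
    have hex : ∀ j : ℕ, ∃ c : ZMod (p ^ M), ∀ x y : ℤ, (x ≠ 0 ∨ y ≠ 0) →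
        redP M ψ (x + j * h * y) y = redP M ψ x y + c := by
      intro j
      have hc0 := (hL M hM).2 1 (j * h) 0 1 (by ring) (Dvd.dvd.mul_left hh _) (dvd_zero _)
      rw [eps_id (Dvd.dvd.mul_left h2h _) (dvd_zero _), one_smul] at hc0
      obtain ⟨c, hc⟩ := hc0
      refine ⟨c, fun x y hxy => ?_⟩
      have := hc x y hxy
      simpa [act] using this
    choose c hc using hex
    have key : ∀ x y : ℤ, (x ≠ 0 ∨ y ≠ 0) → PadicInt.toZModPow M (Nb a h ψ x y) =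
        ∑ j ∈ Finset.range (a + 2), w a j • c j := by
      intro x y hxy
      rw [Nb_eq, map_sum]
      have e : ∀ j ∈ Finset.range (a + 2), PadicInt.toZModPow M (w a j • ψ (x + j * h * y) y) =
          w a j • redP M ψ x y + w a j • c j := by
        intro j _
        rw [map_zsmul, ← smul_add, ← hc j x y hxy]
        rfl
      rw [Finset.sum_congr rfl e, Finset.sum_add_distrib, sum_w_const, zero_add]
    intro x y x' y' hv hv'
    rw [key x y hv, key x' y' hv']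
  -- (i)
  have h4 : ∀ h : ℤ, 2 * (p : ℤ) ∣ h → EqC (Nb a h ψ) 0 := by
    intro h hh
    have h2h : (2 : ℤ) ∣ h := (Dvd.intro _ rfl).trans hh
    apply EqC_of_const
    intro x y x' y' hv hv'
    rw [← sub_eq_zero]
    apply ext2
    intro M hM
    have hpm : (p : ℤ) ^ M ≠ 0 := pow_ne_zero _ hp0
    rw [← h2 h hh M x y x' y' hv hv', map_sub, map_zero,
      h3 M hM (p ^ M * h) (Dvd.intro _ rfl) (Dvd.dvd.mul_left h2h _) _ _ _ _ (nz3 _ hpm hv) (nz3 _ hpm hv'), sub_self]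
  -- second direction
  have g1 : ∀ (c x y : ℤ), (x ≠ 0 ∨ y ≠ 0) →
      Nc a c ψ x y = Nc a (p * c) ψ x (p * y) + κ • Nc a (p * c) G x (p * y) := by
    intro c x y hxy
    rw [Nc_eq, Nc_eq, Nc_eq, Finset.smul_sum]
    have e : ∀ j ∈ Finset.range (a + 2), w a j • ψ x (j * c * x + y) =
        w a j • ψ x (j * (p * c) * x + p * y) + κ • (w a j • G x (j * (p * c) * x + p * y)) +
          w a j • k := by
      intro j _
      have n1 : x ≠ 0 ∨ (j * c) * x + y ≠ 0 := nz2 (j * c) hxy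
      have n2 : x ≠ 0 ∨ (j * (p * c)) * x + p * y ≠ 0 := nz2 _ (nz4 _ hp0 hxy)
      have e1 : ψ x (j * c * x + y) = ψ (p * x) (p * (j * c * x + y)) :=
        (hψ p x (j * c * x + y) hp0 n1).symm
      have e2 : (p : ℤ) * (j * c * x + y) = j * (p * c) * x + p * y := by ring
      rw [e1, e2, hstep _ _ n2, smul_add, smul_add, smul_comm (w a j) κ]
      abel
    rw [Finset.sum_congr rfl e, Finset.sum_add_distrib, Finset.sum_add_distrib, sum_w_const,
      add_zero]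
  have g2 : ∀ (c : ℤ), 2 * (p : ℤ) ^ ν ∣ c → ∀ (m : ℕ) (x y x' y' : ℤ), (x ≠ 0 ∨ y ≠ 0) →
      (x' ≠ 0 ∨ y' ≠ 0) → Nc a (p ^ m * c) ψ x (p ^ m * y) - Nc a (p ^ m * c) ψ x' (p ^ m * y') =
        Nc a c ψ x y - Nc a c ψ x' y' := by
    intro c hcν m
    induction m with
    | zero =>
      intro x y x' y' _ _
      simp
    | succ m ih =>
      intro x y x' y' hv hv'
      have hpm : (p : ℤ) ^ m ≠ 0 := pow_ne_zero _ hp0
      have e1 : (p : ℤ) ^ (m + 1) * c = p * (p ^ m * c) := by ring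
      have e2 : (p : ℤ) ^ (m + 1) * y = p * (p ^ m * y) := by ring
      have e3 : (p : ℤ) ^ (m + 1) * y' = p * (p ^ m * y') := by ring
      have hd : 2 * (p : ℤ) ^ (ν + 1) ∣ p * (p ^ m * c) := by
        have e : 2 * (p : ℤ) ^ (ν + 1) = p * (2 * (p : ℤ) ^ ν) := by ring
        rw [e]
        exact mul_dvd_mul_left _ (Dvd.dvd.mul_left hcν _)
      rw [← ih x y x' y' hv hv', g1 (p ^ m * c) x (p ^ m * y) (nz4 _ hpm hv),
        g1 (p ^ m * c) x' (p ^ m * y') (nz4 _ hpm hv'), e1, e2, e3,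
        const_of_EqC (hGc (p * (p ^ m * c)) hd) (nz4 _ hp0 (nz4 _ hpm hv))
          (nz4 _ hp0 (nz4 _ hpm hv'))]
      abel
  have g3 : ∀ (M : ℕ), 2 ≤ M → ∀ c : ℤ, (p : ℤ) ^ (M + ν - 1) ∣ c → (2 : ℤ) ∣ c → ∀ (x y x' y' : ℤ),
      (x ≠ 0 ∨ y ≠ 0) → (x' ≠ 0 ∨ y' ≠ 0) → PadicInt.toZModPow M (Nc a c ψ x y) =
        PadicInt.toZModPow M (Nc a c ψ x' y') := by
    intro M hM c hcM h2c
    have hex : ∀ j : ℕ, ∃ d : ZMod (p ^ M), ∀ x y : ℤ, (x ≠ 0 ∨ y ≠ 0) →
        redP M ψ x (j * c * x + y) = redP M ψ x y + d := by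
      intro j
      have hd0 := (hL M hM).2 1 0 (j * c) 1 (by ring) (dvd_zero _) (Dvd.dvd.mul_left hcM _)
      rw [eps_id (dvd_zero _) (Dvd.dvd.mul_left h2c _), one_smul] at hd0
      obtain ⟨d, hd⟩ := hd0
      refine ⟨d, fun x y hxy => ?_⟩
      have := hd x y hxy
      simpa [act] using this
    choose d hd using hex
    have key : ∀ x y : ℤ, (x ≠ 0 ∨ y ≠ 0) → PadicInt.toZModPow M (Nc a c ψ x y) =
        ∑ j ∈ Finset.range (a + 2), w a j • d j := by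
      intro x y hxy
      rw [Nc_eq, map_sum]
      have e : ∀ j ∈ Finset.range (a + 2), PadicInt.toZModPow M (w a j • ψ x (j * c * x + y)) =
          w a j • redP M ψ x y + w a j • d j := by
        intro j _
        rw [map_zsmul, ← smul_add, ← hd j x y hxy]
        rfl
      rw [Finset.sum_congr rfl e, Finset.sum_add_distrib, sum_w_const, zero_add]
    intro x y x' y' hv hv'
    rw [key x y hv, key x' y' hv']
  refine ⟨?_, ?_⟩
  · intro h h2h
    apply EqC_of_const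
    intro x y x' y' hv hv'
    have lin : ∀ x y : ℤ, Nb a h (ψ + κ • G) x y = Nb a h ψ x y + κ • Nb a h G x y := by
      intro x y
      rw [Nb_eq, Nb_eq, Nb_eq, Finset.smul_sum, ← Finset.sum_add_distrib]
      refine Finset.sum_congr rfl fun j _ => ?_
      rw [Pi.add_apply, Pi.add_apply, Pi.smul_apply, Pi.smul_apply, smul_add,
        smul_comm (w a j) κ]
    rw [lin, lin, ← h1 h x y hv, ← h1 h x' y' hv']
    have hd : 2 * (p : ℤ) ∣ p * h := by
      rw [mul_comm (2 : ℤ)]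
      exact mul_dvd_mul_left _ h2h
    exact const_of_EqC (h4 (p * h) hd) (nz3 _ hp0 hv) (nz3 _ hp0 hv')
  · intro c hcν
    apply EqC_of_const
    intro x y x' y' hv hv'
    rw [← sub_eq_zero]
    apply ext2
    intro M hM
    have hpm : (p : ℤ) ^ M ≠ 0 := pow_ne_zero _ hp0
    have hd : (p : ℤ) ^ (M + ν - 1) ∣ p ^ M * c := by
      have e : (p : ℤ) ^ (M + ν) ∣ p ^ M * c := by
        rw [pow_add]
        exact mul_dvd_mul_left _ ((Dvd.intro_left _ rfl).trans hcν)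
      exact (pow_dvd_pow _ (Nat.sub_le _ _)).trans e
    rw [← g2 c hcν M x y x' y' hv hv', map_sub, map_zero,
      g3 M hM (p ^ M * c) hd (Dvd.dvd.mul_left ((Dvd.intro _ rfl).trans hcν) _) _ _ _ _ (nz4 _ hpm hv) (nz4 _ hpm hv'), sub_self]

end Pool.Agent.Helper66.TLW
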